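import Pool.Agent.helper36.HK.Spec

/-!
# Project fi, block HK, row REL: the real characters
-/

set_option autoImplicit false

open Finset
open Pool.Agent.FI

noncomputable section

namespace Pool.Agent.HK

private theorem REL_range8 (f : ℕ → ℂ) (d : ℕ) :
    ∑ b ∈ range (8 * d), f b = ∑ k ∈ range d, ∑ s ∈ range 8, f (8 * k + s) := by
  induction d with
  | zero => simp
  | succ n ih =>
    rw [sum_range_succ, ← ih, mul_add, mul_one, sum_range_add]

private theorem REL_zmod (d : ℕ) [NeZero d] (f : ZMod d → ℂ) :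
    ∑ k ∈ range d, f (k : ZMod d) = ∑ c : ZMod d, f c := by
  refine sum_nbij (fun k => (k : ZMod d)) (fun _ _ => mem_univ _) ?_ ?_ (fun _ _ => rfl)
  · intro a ha b hb h
    rw [mem_coe, mem_range] at ha hb
    have h1 : (a : ZMod d) = (b : ZMod d) := h
    rw [ZMod.natCast_eq_natCast_iff'] at h1
    rw [Nat.mod_eq_of_lt ha, Nat.mod_eq_of_lt hb] at h1
    exact h1
  · intro c _
    refine ⟨c.val, ?_, ?_⟩
    · rw [mem_coe, mem_range]
      exact ZMod.val_lt c
    · exact ZMod.natCast_zmod_val c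

private theorem REL_shift (d r : ℕ) [NeZero d] (hd : Odd d) (f : ZMod d → ℂ) :
    ∑ k ∈ range d, f ((8 * k + r : ℕ) : ZMod d) = ∑ c : ZMod d, f c := by
  have h8 : IsUnit (8 : ZMod d) := by
    have h : Nat.Coprime 8 d := by
      have : (8 : ℕ) = 2 ^ 3 := by norm_num
      rw [this]
      exact Nat.Coprime.pow_left 3 ((Nat.coprime_two_left).2 hd)
    have := (ZMod.isUnit_iff_coprime 8 d).2 h
    exact_mod_cast this
  obtain ⟨w, hw⟩ := h8
  have h1 : ∑ k ∈ range d, f ((8 * k + r : ℕ) : ZMod d) = ∑ k ∈ range d, f ((w : ZMod d) * (k : ZMod d) + (r : ZMod d)) := by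
    refine sum_congr rfl fun k _ => ?_
    rw [hw]
    push_cast
    rfl
  rw [h1, REL_zmod d (fun c => f ((w : ZMod d) * c + (r : ZMod d)))]
  refine Function.Bijective.sum_comp (e := fun c : ZMod d => (w : ZMod d) * c + (r : ZMod d)) ?_ f
  constructor
  · intro a b h
    have h2 : (w : ZMod d) * a + (r : ZMod d) = (w : ZMod d) * b + (r : ZMod d) := h
    have h3 : (w : ZMod d) * a = (w : ZMod d) * b := add_right_cancel h2
    exact (Units.mul_right_inj w).1 h3
  · intro c
    refine ⟨(w⁻¹ : (ZMod d)ˣ) * (c - r), ?_⟩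
    simp

theorem REL (hRCH : RCH_stmt) (hCNP : CNP_stmt) (hAPW : APW_stmt) (hSRF : SRF_stmt) (hSIZ : SIZ_stmt) :
    REL_stmt := by
  intro A B
  obtain ⟨C, x₁, hC, hA⟩ := hAPW A (B + 1)
  refine ⟨C, max x₁ (Real.exp 8), hC, ?_⟩
  intro x hx d hd hsf hdx ψ hψ hψ2 j i hj hi hU hT u hu
  have hx1 : x₁ ≤ x := (le_max_left _ _).trans hx
  have hx2 : Real.exp 8 ≤ x := (le_max_right _ _).trans hx
  have hx0 : 0 < x := lt_of_lt_of_le (Real.exp_pos _) hx2
  have hlog : 8 ≤ Real.log x := (Real.le_log_iff_exp_le hx0).2 hx2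
  have hd0 : d ≠ 0 := by
    rintro rfl
    exact (by decide : ¬ Odd 0) hd
  have : NeZero d := ⟨hd0⟩
  obtain ⟨χ, hχ⟩ := hRCH d hd hsf ψ hψ hψ2
  obtain ⟨_, _, hψ0, _, _⟩ := hψ
  -- `j = 0`
  have hj0 : j = 0 := by
    have h1 : ψ (3, 1) = 1 := by
      have hn : N8 (3, 1) = 1 := by decide
      have hc : Nat.Coprime (nn (3, 1)) d := by
        have : nn (3, 1) = 1 := by decide
        rw [this]
        exact Nat.coprime_one_left d
      rw [hχ (3, 1) hc, hn]
      simp
    unfold UInv at hU
    rw [h1] at hU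
    interval_cases j
    · rfl
    · simp at hU
      norm_num at hU
  subst hj0
  obtain ⟨e, he⟩ : ∃ e : ℂ, e = χ (-1) * (-1) ^ i := ⟨_, rfl⟩
  have hen : ‖e‖ ≤ 1 := by
    rw [he, norm_mul, norm_pow, norm_neg, norm_one, one_pow, mul_one]
    exact DirichletCharacter.norm_le_one χ _
  obtain ⟨W, hW⟩ : ∃ W : ℕ → ℂ, W = fun b : ℕ => if b % 8 = 1 then 2 * χ (b : ZMod d) else
    if b % 8 = 7 then 2 * (e * χ (b : ZMod d)) else 0 := ⟨_, rfl⟩
  -- one element
  have hone : ∀ (z : ℤ × ℤ) (p : ℕ), p.Prime → nn z = p → (N8 z = p → HC ψ 0 i 0 z = χ (p : ZMod d)) ∧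
      (N8 z = -(p : ℤ) → HC ψ 0 i 0 z = e * χ (p : ZMod d)) := by
    intro z p hp hz
    have hHC : HC ψ 0 i 0 z = ψ z * ((N8 z).sign : ℂ) ^ i := by
      unfold HC
      simp
    have hψz : ψ z = χ ((N8 z : ℤ) : ZMod d) := by
      by_cases hc : Nat.Coprime (nn z) d
      · exact hχ z hc
      · rw [hψ0 z hc]
        symm
        refine MulChar.map_nonunit χ ?_
        intro hu'
        apply hc
        have h2 : IsUnit (((nn z : ℕ) : ℤ) : ZMod d) := by
          unfold nn
          rcases Int.natAbs_eq (N8 z) with h3 | h3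
          · rw [← h3]
            exact hu'
          · rw [h3] at hu'
            push_cast at hu' ⊢
            simpa using hu'
        rw [Int.cast_natCast] at h2
        exact (ZMod.isUnit_iff_coprime _ _).1 h2
    have hp0 : (0 : ℤ) < p := by exact_mod_cast hp.pos
    constructor
    · intro hN
      rw [hHC, hψz, hN, Int.sign_eq_one_of_pos hp0]
      simp
    · intro hN
      rw [hHC, hψz, hN, Int.sign_eq_neg_one_of_neg (by omega), he]
      have h3 : ((-(p : ℤ) : ℤ) : ZMod d) = (-1) * (p : ZMod d) := by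
        push_cast
        ring
      rw [h3, map_mul]
      push_cast
      ring
  have hrf : ∀ p : ℕ, p.Prime → rf (HC ψ 0 i 0) p = W p := by
    intro p hp
    have hcard := hCNP p hp
    have hz : ∀ z ∈ (FF p).filter (fun z => nn z = p), nn z = p ∧
        (N8 z = (p : ℤ) ∧ p % 8 = 1 ∨ N8 z = -(p : ℤ) ∧ p % 8 = 7) := by
      intro z hz
      rw [mem_filter] at hz
      obtain ⟨hz1, hz2⟩ := hz
      simp only [FF, Finset.mem_filter] at hz1
      have h1 := (hSIZ z hz1.2.1).2.2.2.2
      rw [hz2] at h1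
      exact ⟨hz2, h1⟩
    unfold rf
    rw [hW]
    simp only
    by_cases h1 : p % 8 = 1
    · rw [if_pos h1]
      rw [if_pos (Or.inl h1)] at hcard
      have h2 : ∀ z ∈ (FF p).filter (fun z => nn z = p), HC ψ 0 i 0 z = χ (p : ZMod d) := by
        intro z hz'
        obtain ⟨a, b⟩ := hz z hz'
        rcases b with b | b
        · exact (hone z p hp a).1 b.1
        · omega
      rw [sum_congr rfl h2, sum_const, hcard]
      simp
    · rw [if_neg h1]
      by_cases h7 : p % 8 = 7
      · rw [if_pos h7]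
        rw [if_pos (Or.inr h7)] at hcard
        have h2 : ∀ z ∈ (FF p).filter (fun z => nn z = p), HC ψ 0 i 0 z = e * χ (p : ZMod d) := by
          intro z hz'
          obtain ⟨a, b⟩ := hz z hz'
          rcases b with b | b
          · omega
          · exact (hone z p hp a).2 b.1
        rw [sum_congr rfl h2, sum_const, hcard]
        simp
      · rw [if_neg h7]
        rw [if_neg (by omega), card_eq_zero] at hcard
        rw [hcard, sum_empty]
  -- the sum over a period
  have hsum : ∑ b ∈ range (8 * d), W b = 0 := by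
    have h1 : ∀ k, ∑ s ∈ range 8, W (8 * k + s) = 2 * χ ((8 * k + 1 : ℕ) : ZMod d) + 2 * e * χ ((8 * k + 7 : ℕ) : ZMod d) := by
      intro k
      rw [hW]
      simp only [sum_range_succ, sum_range_zero]
      have e0 : (8 * k + 0) % 8 = 0 := by omega
      have e1 : (8 * k + 1) % 8 = 1 := by omega
      have e2 : (8 * k + 2) % 8 = 2 := by omega
      have e3 : (8 * k + 3) % 8 = 3 := by omega
      have e4 : (8 * k + 4) % 8 = 4 := by omega
      have e5 : (8 * k + 5) % 8 = 5 := by omega
      have e6 : (8 * k + 6) % 8 = 6 := by omega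
      have e7 : (8 * k + 7) % 8 = 7 := by omega
      rw [e0, e1, e2, e3, e4, e5, e6, e7]
      norm_num
      ring
    rw [REL_range8]
    simp_rw [h1]
    rw [sum_add_distrib, ← mul_sum, ← mul_sum, REL_shift d 1 hd (fun c => χ c), REL_shift d 7 hd (fun c => χ c)]
    by_cases hχ1 : χ = 1
    · have hi1 : i = 1 := by
        by_contra hi'
        have hi0 : i = 0 := by omega
        apply hT
        refine ⟨?_, rfl, hi0, rfl⟩
        intro z hz
        rw [hχ z hz, hχ1]
        refine MulChar.one_apply ?_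
        rcases Int.natAbs_eq (N8 z) with h3 | h3
        · rw [h3, Int.cast_natCast]
          exact (ZMod.isUnit_iff_coprime _ _).2 hz
        · rw [h3, Int.cast_neg, Int.cast_natCast]
          exact ((ZMod.isUnit_iff_coprime _ _).2 hz).neg
      have he1 : e = -1 := by
        rw [he, hi1, hχ1, MulChar.one_apply (isUnit_one.neg)]
        ring
      rw [he1]
      ring
    · rw [MulChar.sum_eq_zero_of_ne_one hχ1]
      ring
  -- periodicity etc.
  have hper : ∀ n, W (n + 8 * d) = W n := by
    intro n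
    rw [hW]
    simp only
    have h1 : (n + 8 * d) % 8 = n % 8 := by omega
    have h2 : ((n + 8 * d : ℕ) : ZMod d) = (n : ZMod d) := by
      push_cast
      simp
    rw [h1, h2]
  have hbd : ∀ n, ‖W n‖ ≤ 2 := by
    intro n
    have hc := DirichletCharacter.norm_le_one χ (n : ZMod d)
    rw [hW]
    simp only
    split_ifs
    · rw [norm_mul]
      have : ‖(2 : ℂ)‖ = 2 := by norm_num
      rw [this]
      linarith
    · rw [norm_mul, norm_mul]
      have : ‖(2 : ℂ)‖ = 2 := by norm_num
      rw [this]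
      have h3 : ‖e‖ * ‖χ (n : ZMod d)‖ ≤ 1 * 1 := mul_le_mul hen hc (norm_nonneg _) (by norm_num)
      linarith
    · simp
  have hnc : ∀ n, ¬ Nat.Coprime n (8 * d) → W n = 0 := by
    intro n hn
    rw [hW]
    simp only
    by_cases hodd : n % 2 = 1
    · have h1 : ¬ Nat.Coprime n d := by
        intro h
        apply hn
        refine Nat.Coprime.mul_right ?_ h
        have : (8 : ℕ) = 2 ^ 3 := by norm_num
        rw [this]
        exact Nat.Coprime.pow_right 3 ((Nat.coprime_two_right).2 (Nat.odd_iff.2 hodd))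
      have h2 : χ (n : ZMod d) = 0 := by
        refine MulChar.map_nonunit χ ?_
        intro hu'
        exact h1 ((ZMod.isUnit_iff_coprime _ _).1 hu')
      rw [h2]
      simp
    · rw [if_neg (by omega), if_neg (by omega)]
  have hq : ((8 * d : ℕ) : ℝ) ≤ Real.log x ^ (B + 1) := by
    push_cast
    rw [pow_succ, mul_comm (8 : ℝ)]
    exact mul_le_mul hdx hlog (by norm_num) (by positivity)
  have hmain := hA x hx1 (8 * d) (by omega) hq W hper hbd hnc u hu
  rw [hsum, mul_zero, sub_zero] at hmain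
  rw [hSRF.2.2]
  have hfin : ∑ p ∈ Ioc 0 u with p.Prime, (Real.log p : ℂ) * rf (HC ψ 0 i 0) p =
      ∑ p ∈ Ioc 0 u with p.Prime, (Real.log p : ℂ) * W p := by
    refine sum_congr rfl fun p hp => ?_
    rw [mem_filter] at hp
    rw [hrf p hp.2]
  rw [hfin]
  exact hmain

end Pool.Agent.HK
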